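import Pool.Agent.H29.Thr.Chart

open Set Topology

namespace Pool.Agent.Results.MP_3f6a1f_co.GenusEightM

open Pool.Agent.H29.Thr

theorem vertex_region {n : ℤ} {ι : Type*} {g : ℕ} (hn : 0 ≤ n) (E : ι → Edg n)
    (hE : Function.Injective E) (ε : Fin g ≃ ι × HK) {w : ℤ} (h0 : 0 ≤ w) (h1 : w < n) :
    pv n w ∈ (mkD hn E hE ε).region := by
  rw [mem_region]
  constructor
  · have b0 := blk_nonneg hn
    have b1 := blk_lt hn h1
    have b2 : 0 ≤ blk n w := by unfold blk; nlinarith
    have r1 : (0 : ℝ) ≤ xv n w := by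
      have : 0 ≤ xv n w := by unfold xv; omega
      exact_mod_cast this
    have r2 : (xv n w : ℝ) ≤ side n := by
      have : xv n w ≤ side n := by unfold xv side; omega
      exact_mod_cast this
    have r3 : (0 : ℝ) ≤ side n := r1.trans r2
    rw [norm_prod_le_iff]
    simp only [pv, norm_zero, Real.norm_eq_abs, abs_of_nonneg r1]
    exact ⟨r2, r3⟩
  · intro i k
    by_contra hc
    push Not at hc
    have := ((E i).near_hole hc.le).2
    obtain ⟨o1, o2, o3, o4, o5, o6, o7, o8, o9, o10, o11, o12, o13, o14⟩ := (E i).one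
    have b0 := blk_nonneg hn
    have h2 : 1 ≤ (E i).hy k := by
      simp only [y1] at o10 o9
      cases k <;> simp only [Edg.hy] <;> omega
    have h3 : (1 : ℝ) ≤ (E i).hy k := by exact_mod_cast h2
    simp only [pv] at this
    rw [abs_lt] at this
    linarith

theorem thrackle {V : Type*} [Finite V] (G : SimpleGraph V) :
    ∃ D : HoledSquare (8 * G.edgeSet.ncard), CanBeThrackled G D.surface := by
  classical
  obtain ⟨N, ⟨κ⟩⟩ := Finite.exists_equiv_fin V
  let n : ℤ := N
  have hn : 0 ≤ n := Int.natCast_nonneg N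
  let w : V → ℤ := fun v => ((κ v : ℕ) : ℤ)
  have hw0 : ∀ v, 0 ≤ w v := fun v => Int.natCast_nonneg _
  have hw1 : ∀ v, w v < n := fun v => by
    have := (κ v).2
    show ((κ v : ℕ) : ℤ) < (N : ℤ)
    exact_mod_cast this
  have hwi : Function.Injective w := by
    intro u v huv
    have huv' : ((κ u : ℕ) : ℤ) = ((κ v : ℕ) : ℤ) := huv
    have : (κ u : ℕ) = κ v := by exact_mod_cast huv'
    exact κ.injective (Fin.ext this)
  have hex : ∀ e : G.edgeSet, ∃ a b : V, (e : Sym2 V) = s(a, b) ∧ w a < w b := by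
    rintro ⟨e, he⟩
    induction e with
    | _ a b =>
      have hab : a ≠ b := (show G.Adj a b from he).ne
      rcases lt_or_gt_of_ne (fun h => hab (hwi h)) with h | h
      · exact ⟨a, b, rfl, h⟩
      · exact ⟨b, a, Sym2.eq_swap, h⟩
  choose a b hab hlt using hex
  let E : G.edgeSet → Edg n := fun e => ⟨w (a e), w (b e), hw0 _, hlt e, hw1 _⟩
  have hE : Function.Injective E := by
    intro e f hef
    have h1 : w (a e) = w (a f) := congrArg Edg.u hef
    have h2 : w (b e) = w (b f) := congrArg Edg.v hef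
    apply Subtype.ext
    rw [hab e, hab f, hwi h1, hwi h2]
  have hcard : Nat.card (G.edgeSet × HK) = 8 * G.edgeSet.ncard := by
    rw [Nat.card_prod, Nat.card_eq_fintype_card (α := HK), card_HK, mul_comm]
    rfl
  let ε : Fin (8 * G.edgeSet.ncard) ≃ G.edgeSet × HK := (Finite.equivFinOfCardEq hcard).symm
  have hvr : ∀ v, pv n (w v) ∈ (mkD hn E hE ε).region := fun v =>
    vertex_region hn E hE ε (hw0 v) (hw1 v)
  let D := mkD hn E hE ε
  let φ : V → D.surface := fun v => ⟨top hn E hE ε (pv n (w v)), top_mem hn E hE ε (hvr v)⟩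
  let A : G.edgeSet → Set D.surface := fun e => Subtype.val ⁻¹' (arc hn E hE ε e)
  -- membership of vertices in edges
  have hmem : ∀ (e : G.edgeSet) (x : V), x ∈ (e : Sym2 V) ↔ x = a e ∨ x = b e := by
    intro e x
    rw [hab e, Sym2.mem_iff]
  have harc : ∀ (e : G.edgeSet) (u v : V), (e : Sym2 V) = s(u, v) →
      IsArc (A e) (φ u) (φ v) := by
    intro e u v huv
    have h0 : IsArc (A e) (φ (a e)) (φ (b e)) :=
      (isArc_arc hn E hE ε e).subtype (arc_sub hn E hE ε e) _ _
    rw [hab e, Sym2.eq_iff] at huv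
    rcases huv with ⟨h1, h2⟩ | ⟨h1, h2⟩
    · rw [← h1, ← h2]; exact h0
    · rw [← h1, ← h2]; exact h0.symm
  have hphi : ∀ (e : G.edgeSet) (v : V), v ∈ (e : Sym2 V) → φ v ∈ A e := by
    intro e v hv
    rcases (hmem e v).1 hv with h | h
    · rw [h]; exact (harc e _ _ (hab e)).left_mem
    · rw [h]; exact (harc e _ _ (hab e)).right_mem
  have hne : ∀ e f : G.edgeSet, e ≠ f → E e ≠ E f := fun e f h h' => h (hE h')
  -- two different edges share at most one vertex
  have huniq : ∀ (e f : G.edgeSet) (x y : V), e ≠ f → x ∈ (e : Sym2 V) → x ∈ (f : Sym2 V) →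
      y ∈ (e : Sym2 V) → y ∈ (f : Sym2 V) → x = y := by
    intro e f x y hef h1 h2 h3 h4
    by_contra hxy
    apply hef
    apply Subtype.ext
    rw [((Sym2.mem_and_mem_iff hxy).1 ⟨h1, h3⟩), ((Sym2.mem_and_mem_iff hxy).1 ⟨h2, h4⟩)]
  have hcommon : ∀ (e f : G.edgeSet) (z : ℤ), (z = (E e).u ∨ z = (E e).v) →
      (z = (E f).u ∨ z = (E f).v) → ∃ x, w x = z ∧ x ∈ (e : Sym2 V) ∧ x ∈ (f : Sym2 V) := by
    intro e f z h1 h2
    have k1 : ∃ x, w x = z ∧ x ∈ (e : Sym2 V) := by
      rcases h1 with h | h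
      · exact ⟨a e, h.symm, (hmem _ _).2 (Or.inl rfl)⟩
      · exact ⟨b e, h.symm, (hmem _ _).2 (Or.inr rfl)⟩
    have k2 : ∃ x, w x = z ∧ x ∈ (f : Sym2 V) := by
      rcases h2 with h | h
      · exact ⟨a f, h.symm, (hmem _ _).2 (Or.inl rfl)⟩
      · exact ⟨b f, h.symm, (hmem _ _).2 (Or.inr rfl)⟩
    obtain ⟨x, x1, x2⟩ := k1
    obtain ⟨y, y1, y2⟩ := k2
    have : x = y := hwi (x1.trans y1.symm)
    subst this
    exact ⟨x, x1, x2, y2⟩
  -- order relations for edges sharing a vertex
  have hshare : ∀ (e f : G.edgeSet) (v : V), v ∈ (e : Sym2 V) → v ∈ (f : Sym2 V) →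
      ¬ ((E e).u < (E f).u ∧ (E e).v ≠ (E f).u ∧ (E e).v ≠ (E f).v) := by
    rintro e f v h1 h2 ⟨h3, h4, h5⟩
    have l1 := hlt e
    have l2 := hlt f
    have h3' : w (a e) < w (a f) := h3
    have h4' : w (b e) ≠ w (a f) := h4
    have h5' : w (b e) ≠ w (b f) := h5
    rcases (hmem e v).1 h1 with k1 | k1 <;> rcases (hmem f v).1 h2 with k2 | k2
    · rw [← k1, ← k2] at h3'; exact lt_irrefl _ h3'
    · rw [← k1] at h3'
      rw [← k2] at l2
      exact absurd (h3'.trans l2) (lt_irrefl _)
    · rw [← k1, ← k2] at h4'; exact h4' rfl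
    · rw [← k1, ← k2] at h5'; exact h5' rfl
  have hcross : ∀ e f : G.edgeSet, (∀ v, v ∈ (e : Sym2 V) → v ∉ (f : Sym2 V)) →
      (E e).u < (E f).u → ∃ p, A e ∩ A f = {p} ∧ CrossAt (A e) (A f) p := by
    intro e f hdis h1
    have h2 : (E e).v ≠ (E f).u := by
      intro h
      have : b e = a f := hwi h
      exact hdis (b e) ((hmem _ _).2 (Or.inr rfl)) ((hmem _ _).2 (Or.inl this))
    have h3 : (E e).v ≠ (E f).v := by
      intro h
      have : b e = b f := hwi h
      exact hdis (b e) ((hmem _ _).2 (Or.inr rfl)) ((hmem _ _).2 (Or.inr this))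
    have hef : e ≠ f := by
      rintro rfl
      exact lt_irrefl _ h1
    have hnear := near_cp hn E hE ε h1 h2 h3 (p := cp E e f) (by simp)
    have hm : top hn E hE ε (cp E e f) ∈ D.surface := top_mem hn E hE ε hnear.1
    refine ⟨⟨top hn E hE ε (cp E e f), hm⟩, ?_, cross_chart hn E hE ε h1 h2 h3 hm⟩
    apply Subset.antisymm
    · rintro q ⟨hq1, hq2⟩
      obtain ⟨k1, k2, k3⟩ := arc_inter hn E hE ε hef hq1 hq2
      apply Subtype.ext
      show q.1 = top hn E hE ε (cp E e f)
      rw [k3]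
      rcases Edg.T_inter_T (hne e f hef) k1 k2 with ⟨z, z1, z2, z3⟩ | ⟨z1, z2, z3, z4⟩ |
        ⟨z1, z2, z3, z4⟩
      · exfalso
        obtain ⟨x, x1, x2, x3⟩ := hcommon e f z z1 z2
        exact hdis x x2 x3
      · rw [z4]; rfl
      · exact absurd z1 (not_lt.2 h1.le)
    · rintro q hq
      rw [mem_singleton_iff] at hq
      subst hq
      constructor
      · show top hn E hE ε (cp E e f) ∈ arc hn E hE ε e
        exact top_mem_arc hn E hE ε (hnear.2.2.2.2 rfl)
      · show top hn E hE ε (cp E e f) ∈ arc hn E hE ε f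
        exact top_mem_arc hn E hE ε (hnear.2.2.1.2 rfl)
  refine ⟨D, φ, A, ?_, harc, ?_, ?_, ?_⟩
  · intro u v huv
    have h1 : top hn E hE ε (pv n (w u)) = top hn E hE ε (pv n (w v)) :=
      congrArg Subtype.val huv
    have h2 : pv n (w u) = pv n (w v) := congrArg Prod.fst h1
    have h3 : (xv n (w u) : ℝ) = xv n (w v) := congrArg Prod.fst h2
    exact hwi (xv_inj hn (by exact_mod_cast h3))
  · rintro e v ⟨p, hp, hpv⟩
    have h1 : p = pv n (w v) := congrArg Prod.fst hpv
    rw [h1] at hp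
    rcases (E e).vertex_path hp with h | h
    · exact (hmem e v).2 (Or.inl (hwi h))
    · exact (hmem e v).2 (Or.inr (hwi h))
  · intro e f v hef hv1 hv2
    apply Subset.antisymm
    · rintro q ⟨hq1, hq2⟩
      obtain ⟨k1, k2, k3⟩ := arc_inter hn E hE ε hef hq1 hq2
      apply Subtype.ext
      show q.1 = top hn E hE ε (pv n (w v))
      rw [k3]
      rcases Edg.T_inter_T (hne e f hef) k1 k2 with ⟨z, z1, z2, z3⟩ | ⟨z1, z2, z3, z4⟩ |
        ⟨z1, z2, z3, z4⟩
      · obtain ⟨x, x1, x2, x3⟩ := hcommon e f z z1 z2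
        have : x = v := huniq e f x v hef x2 x3 hv1 hv2
        rw [z3, ← this, x1]
        rfl
      · exact absurd ⟨z1, z2, z3⟩ (hshare e f v hv1 hv2)
      · exact absurd ⟨z1, z2, z3⟩ (hshare f e v hv2 hv1)
    · rintro q hq
      rw [mem_singleton_iff] at hq
      subst hq
      exact ⟨hphi e v hv1, hphi f v hv2⟩
  · intro e f hdis
    have hue : (E e).u ≠ (E f).u := by
      intro h
      have : a e = a f := hwi h
      exact hdis (a e) ((hmem _ _).2 (Or.inl rfl)) ((hmem _ _).2 (Or.inl this))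
    rcases lt_or_gt_of_ne hue with h | h
    · exact hcross e f hdis h
    · obtain ⟨p, p1, p2⟩ := hcross f e (fun v h1 h2 => hdis v h2 h1) h
      exact ⟨p, by rw [inter_comm]; exact p1, p2.symm⟩

/-- Sanity check for the definition: there are squares with `g` holes for every `g`. -/
theorem holedSquare_nonempty (g : ℕ) : Nonempty (HoledSquare g) := by
  refine ⟨{ side := 4 * g + 4
            centre := fun i => (4 * (i : ℕ), 0)
            radius := fun _ => 1
            side_pos := by positivity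
            radius_pos := fun _ => one_pos
            inside := ?_
            disjoint := ?_ }⟩
  · intro i
    have h1 : ((i : ℕ) : ℝ) + 1 ≤ g := by exact_mod_cast i.2
    have h0 : (0 : ℝ) ≤ ((i : ℕ) : ℝ) := Nat.cast_nonneg _
    rw [Prod.norm_def, ← lt_sub_iff_add_lt, max_lt_iff]
    simp only [norm_zero, Real.norm_eq_abs]
    rw [abs_of_nonneg (by positivity)]
    constructor <;> linarith
  · intro i j hij
    rw [Prod.norm_def, lt_max_iff]
    left
    simp only [Prod.fst_sub, Real.norm_eq_abs]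
    rw [lt_abs]
    have hij' : (i : ℕ) ≠ j := fun h => hij (Fin.ext h)
    rcases lt_or_gt_of_ne hij' with h | h
    · right
      have : ((i : ℕ) : ℝ) + 1 ≤ ((j : ℕ) : ℝ) := by exact_mod_cast h
      linarith
    · left
      have : ((j : ℕ) : ℝ) + 1 ≤ ((i : ℕ) : ℝ) := by exact_mod_cast h
      linarith

/-- Sanity check for the definition: being thrackled on a surface only depends on the surface up
to homeomorphism. -/
theorem canBeThrackled_homeo {V : Type*} (G : SimpleGraph V) {S S' : Type*} [TopologicalSpace S]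
    [TopologicalSpace S'] (i : S ≃ₜ S') (h : CanBeThrackled G S) : CanBeThrackled G S' := by
  obtain ⟨φ, A, h1, h2, h3, h4, h5⟩ := h
  have inj : Function.Injective i := i.injective
  refine ⟨fun v => i (φ v), fun e => i '' (A e), fun u v huv => h1 (inj huv), ?_, ?_, ?_, ?_⟩
  · intro e u v huv
    exact (h2 e u v huv).image i i.continuous.continuousOn inj.injOn
  · intro e v hv
    exact h3 e v ((inj.mem_set_image).1 hv)
  · intro e f v hef hv hv'
    show i '' (A e) ∩ i '' (A f) = {i (φ v)}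
    rw [← image_inter inj, h4 e f v hef hv hv', image_singleton]
  · intro e f hef
    obtain ⟨p, hp, O, hO, hpO, k, hk⟩ := h5 e f hef
    refine ⟨i p, ?_, i '' O, i.isOpenMap O hO, ⟨p, hpO, rfl⟩, (i.image O).symm.trans k, ?_⟩
    · show i '' (A e) ∩ i '' (A f) = {i p}
      rw [← image_inter inj, hp, image_singleton]
    · intro q
      have hq : i (((i.image O).symm q : O) : S) = (q : S') :=
        congrArg Subtype.val ((i.image O).apply_symm_apply q)
      constructor
      · show (q : S') ∈ i '' (A e) ↔ _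
        rw [← hq, inj.mem_set_image]
        exact (hk _).1
      · show (q : S') ∈ i '' (A f) ↔ _
        rw [← hq, inj.mem_set_image]
        exact (hk _).2

/-- **Thrackle genus is at most `8 m`.** For every finite simple graph `G` with `m` edges, the
least `g` such that `G` can be thrackled on the closed orientable surface of genus `g` exists and is
at most `8 * m`. -/
theorem result {V : Type*} [Finite V] (G : SimpleGraph V) :
    ∃ t : ℕ, IsLeast {g : ℕ | ∃ D : HoledSquare g, CanBeThrackled G D.surface} t ∧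
      t ≤ 8 * G.edgeSet.ncard := by
  have hne : (8 * G.edgeSet.ncard) ∈
      {g : ℕ | ∃ D : HoledSquare g, CanBeThrackled G D.surface} := thrackle G
  exact ⟨sInf _, ⟨Nat.sInf_mem ⟨_, hne⟩, fun _ h => Nat.sInf_le h⟩, Nat.sInf_le hne⟩

end Pool.Agent.Results.MP_3f6a1f_co.GenusEightM
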